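import Pool.Agent.H78.XQ.Targets

/-!
# A decision tree on strings of given weight (board xq_modules, module TRE)
-/

set_option autoImplicit false

namespace Pool.Agent.H51.XQ

open Finset Pool.Agent.H78.XQ Pool.Agent.H6.NB Pool.Agent.H70.OQ Pool.Agent.H70.EH
open Pool.Agent.H70.EI
open Pool.Agent.H68.AC (PA Wt fd Ext ind DT upd)

section

variable {V : Type} [Fintype V] [DecidableEq V]

theorem bi_nonneg' (b : Bool) : 0 ≤ bi b := by
  cases b <;> simp [bi]

theorem mn_nonneg' (F : (V → Bool) → ℝ) (h : ∀ y, 0 ≤ F y) : 0 ≤ mn F := by
  unfold mn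
  exact div_nonneg (Finset.sum_nonneg fun y _ => h y) (by positivity)

theorem mem_ws (κ : V → Option Bool) (W : ℕ) (y : V → Bool) :
    y ∈ ws κ W ↔ Ext κ y ∧ nt y = W := by
  simp [ws]

/-- half of the strings -/
theorem sum_half (v : V) (a : Bool) (G : (V → Bool) → ℝ)
    (hG : ∀ y b, G (Function.update y v b) = G y) :
    ∑ y : V → Bool, (if y v = a then G y else 0) = (∑ y, G y) / 2 := by
  have inv : Function.Involutive fun y : V → Bool => Function.update y v (!(y v)) := by
    intro y
    funext w
    by_cases hw : w = v
    · subst hw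
      simp
    · simp [Function.update_of_ne hw]
  have h1 : ∑ y : V → Bool, (if y v = a then G y else 0) =
      ∑ y : V → Bool, (if y v = !a then G y else 0) := by
    rw [← Function.Bijective.sum_comp inv.bijective]
    refine Finset.sum_congr rfl fun y _ => ?_
    simp only [hG]
    have : (Function.update y v (!(y v)) v = a) ↔ (y v = !a) := by
      rw [Function.update_self]
      cases y v <;> cases a <;> simp
    by_cases h : y v = !a
    · rw [if_pos (this.2 h), if_pos h]
    · rw [if_neg (fun h' => h (this.1 h')), if_neg h]
  have h2 : ∑ y : V → Bool, (if y v = a then G y else 0) +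
      ∑ y : V → Bool, (if y v = !a then G y else 0) = ∑ y, G y := by
    rw [← Finset.sum_add_distrib]
    refine Finset.sum_congr rfl fun y _ => ?_
    cases y v <;> cases a <;> simp
  linarith

theorem mn_node (κ : V → Option Bool) (v : V) (hv : κ v = none) (l r : DT V) :
    mn (rst κ fun y => bi ((DT.node v l r).eval y)) =
      (mn (rst (upd κ v false) fun y => bi (l.eval y)) +
        mn (rst (upd κ v true) fun y => bi (r.eval y))) / 2 := by
  have key : ∑ y : V → Bool, rst κ (fun y => bi ((DT.node v l r).eval y)) y =
      (∑ y : V → Bool, rst (upd κ v false) (fun y => bi (l.eval y)) y +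
        ∑ y : V → Bool, rst (upd κ v true) (fun y => bi (r.eval y)) y) / 2 := by
    have hl := sum_half v false (rst (upd κ v false) fun y => bi (l.eval y)) (by
      intro y b
      unfold rst
      congr 2
      funext w
      by_cases hw : w = v
      · subst hw
        simp [upd]
      · simp [upd, Function.update_of_ne hw])
    have hr := sum_half v true (rst (upd κ v true) fun y => bi (r.eval y)) (by
      intro y b
      unfold rst
      congr 2
      funext w
      by_cases hw : w = v
      · subst hw
        simp [upd]
      · simp [upd, Function.update_of_ne hw])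
    rw [add_div, ← hl, ← hr, ← Finset.sum_add_distrib]
    refine Finset.sum_congr rfl fun y _ => ?_
    have hfill : ∀ b, y v = b → (fun w => (upd κ v b w).getD (y w)) = fun w => (κ w).getD (y w) := by
      intro b hb
      funext w
      by_cases hw : w = v
      · subst hw
        simp [upd, hv, hb]
      · simp [upd, Function.update_of_ne hw]
    cases hyv : y v with
    | false =>
      have : (κ v).getD (y v) = false := by rw [hv, hyv]; rfl
      simp [rst, Pool.Agent.H68.AC.DT.eval, this, hfill false hyv]
    | true =>
      have : (κ v).getD (y v) = true := by rw [hv, hyv]; rfl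
      simp [rst, Pool.Agent.H68.AC.DT.eval, this, hfill true hyv]
  unfold mn
  rw [key]
  ring

theorem sum_ws (κ : V → Option Bool) (W : ℕ) (v : V) (hv : κ v = none) (F : (V → Bool) → ℝ) :
    ∑ y ∈ ws κ W, F y = ∑ y ∈ ws (upd κ v false) W, F y + ∑ y ∈ ws (upd κ v true) W, F y := by
  classical
  rw [← Finset.sum_union]
  · refine Finset.sum_congr ?_ fun _ _ => rfl
    ext y
    rw [Finset.mem_union, mem_ws, mem_ws, mem_ws]
    have hx : ∀ b, Ext (upd κ v b) y ↔ Ext κ y ∧ y v = b := by
      intro b
      constructor
      · intro h
        refine ⟨?_, h v b (by simp [upd])⟩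
        intro w c hw
        have hne : w ≠ v := by
          rintro rfl
          rw [hv] at hw
          cases hw
        exact h w c (by simp [upd, Function.update_of_ne hne, hw])
      · rintro ⟨h1, h2⟩ w c hw
        by_cases hwv : w = v
        · subst hwv
          simp [upd] at hw
          rw [h2, hw]
        · simp [upd, Function.update_of_ne hwv] at hw
          exact h1 w c hw
    rw [hx, hx]
    cases y v <;> simp
  · rw [Finset.disjoint_left]
    intro y h1 h2
    rw [mem_ws] at h1 h2
    have e1 := h1.1 v false (by simp [upd])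
    have e2 := h2.1 v true (by simp [upd])
    rw [e1] at e2
    cases e2

theorem nv_upd_none (κ : V → Option Bool) (v : V) (hv : κ v = none) (b : Bool) :
    nv (upd κ v b) none + 1 = nv κ none := by
  unfold nv
  have : (univ.filter fun w => κ w = none) = insert v (univ.filter fun w => upd κ v b w = none) := by
    ext w
    simp only [mem_filter, mem_univ, true_and, mem_insert]
    by_cases hw : w = v
    · subst hw
      simp [hv]
    · simp [upd, hw]
  rw [this, card_insert_of_notMem]
  simp [upd]

theorem nv_upd_false (κ : V → Option Bool) (v : V) (hv : κ v = none) :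
    nv (upd κ v false) (some true) = nv κ (some true) := by
  unfold nv
  congr 1
  ext w
  simp only [mem_filter, mem_univ, true_and]
  by_cases hw : w = v
  · subst hw
    simp [upd, hv]
  · simp [upd, Function.update_of_ne hw]

theorem nv_upd_true (κ : V → Option Bool) (v : V) (hv : κ v = none) :
    nv (upd κ v true) (some true) = nv κ (some true) + 1 := by
  unfold nv
  have : (univ.filter fun w => upd κ v true w = some true) =
      insert v (univ.filter fun w => κ w = some true) := by
    ext w
    simp only [mem_filter, mem_univ, true_and, mem_insert]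
    by_cases hw : w = v
    · subst hw
      simp [upd]
    · simp [upd, hw]
  rw [this, card_insert_of_notMem]
  simp [hv]

theorem wm_child (κ : V → Option Bool) (W : ℕ) (v : V) (b : Bool) (hv : κ v = some b)
    (l r : DT V) : (wm κ W fun y => bi ((DT.node v l r).eval y)) =
      wm κ W fun y => bi ((cond b r l).eval y) := by
  unfold wm
  congr 1
  refine Finset.sum_congr rfl fun y hy => ?_
  rw [mem_ws] at hy
  have := hy.1 v b hv
  cases b <;> simp [Pool.Agent.H68.AC.DT.eval, this]

theorem mn_child (κ : V → Option Bool) (v : V) (b : Bool) (hv : κ v = some b)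
    (l r : DT V) : (mn (rst κ fun y => bi ((DT.node v l r).eval y))) =
      mn (rst κ fun y => bi ((cond b r l).eval y)) := by
  congr 1
  funext y
  cases b <;> simp [rst, Pool.Agent.H68.AC.DT.eval, hv]

end

theorem tre (hCWS : T_CWS) : T_TRE := by
  intro V _ _ t
  induction t with
  | leaf b =>
    intro κ W A η _ _ h1 h2 _
    have hd : (DT.leaf b : DT V).depth = 0 := rfl
    rw [hd] at h1 h2 ⊢
    have hc := hCWS V κ W (by omega)
    have hpos : 0 < (ws κ W).card := by
      rw [hc]
      exact Nat.choose_pos (by omega)
    have e1 : (mn (rst κ fun y => bi ((DT.leaf b : DT V).eval y))) = bi b := by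
      unfold mn rst
      simp only [Pool.Agent.H68.AC.DT.eval, Finset.sum_const, nsmul_eq_mul, Finset.card_univ, Fintype.card_fun,
        Fintype.card_bool]
      push_cast
      field_simp
    have e2 : (wm κ W fun y => bi ((DT.leaf b : DT V).eval y)) = bi b := by
      unfold wm
      simp only [Pool.Agent.H68.AC.DT.eval, Finset.sum_const, nsmul_eq_mul]
      have : ((ws κ W).card : ℝ) ≠ 0 := by positivity
      field_simp
    rw [e1, e2, pow_zero, one_mul]
  | node v l r ihl ihr =>
    intro κ W A η h0 hη h1 h2 hA
    have hd : (DT.node v l r).depth = max l.depth r.depth + 1 := rfl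
    have hb0 : 0 ≤ 1 - 2 * η := by linarith
    have hb1 : 1 - 2 * η ≤ 1 := by linarith
    have hll : l.depth ≤ max l.depth r.depth := le_max_left _ _
    have hrr : r.depth ≤ max l.depth r.depth := le_max_right _ _
    rcases hκ : κ v with _ | b
    · -- the variable is free
      have n0 := nv_upd_none κ v hκ false
      have n1 := nv_upd_none κ v hκ true
      have t0 := nv_upd_false κ v hκ
      have t1 := nv_upd_true κ v hκ
      rw [hd] at h1 h2
      have i0 := ihl (upd κ v false) W A η h0 hη (by omega) (by omega) (by
        refine le_trans ?_ hA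
        have : (nv (upd κ v false) none : ℝ) ≤ nv κ none := by
          exact_mod_cast (by omega : nv (upd κ v false) none ≤ nv κ none)
        exact mul_le_mul_of_nonneg_left this (by linarith))
      have i1 := ihr (upd κ v true) W A η h0 hη (by omega) (by omega) (by
        refine le_trans ?_ hA
        have : (nv (upd κ v true) none : ℝ) ≤ nv κ none := by
          exact_mod_cast (by omega : nv (upd κ v true) none ≤ nv κ none)
        exact mul_le_mul_of_nonneg_left this (by linarith))
      have c := hCWS V κ W (by omega)
      have c0 := hCWS V (upd κ v false) W (by omega)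
      have c1 := hCWS V (upd κ v true) W (by omega)
      obtain ⟨m', hm'⟩ : ∃ m', nv κ none = m' + 1 := ⟨nv (upd κ v false) none, by omega⟩
      obtain ⟨k', hk'⟩ : ∃ k', W = nv κ (some true) + (k' + 1) :=
        ⟨W - nv κ (some true) - 1, by omega⟩
      have c' : (ws κ W).card = (m' + 1).choose (k' + 1) := by
        rw [c, hm', hk', Nat.add_sub_cancel_left]
      have c0' : (ws (upd κ v false) W).card = m'.choose (k' + 1) := by
        rw [c0, t0, hk', Nat.add_sub_cancel_left]
        congr 1
        omega
      have c1' : (ws (upd κ v true) W).card = m'.choose k' := by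
        rw [c1, t1, hk']
        congr 1
        · omega
        · omega
      have pas : (m' + 1).choose (k' + 1) = m'.choose k' + m'.choose (k' + 1) :=
        Nat.choose_succ_succ m' k'
      have abs : (m' + 1) * m'.choose k' = (m' + 1).choose (k' + 1) * (k' + 1) :=
        Nat.add_one_mul_choose_eq m' k'
      have hcpos : 0 < (m' + 1).choose (k' + 1) := Nat.choose_pos (by omega)
      have h1pos : 0 < m'.choose k' := Nat.choose_pos (by omega)
      have h0pos : 0 < m'.choose (k' + 1) := Nat.choose_pos (by omega)
      set C : ℝ := (((m' + 1).choose (k' + 1) : ℕ) : ℝ) with hC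
      set C1 : ℝ := ((m'.choose k' : ℕ) : ℝ) with hC1
      set C0 : ℝ := ((m'.choose (k' + 1) : ℕ) : ℝ) with hC0
      have hCpos : 0 < C := by rw [hC]; exact_mod_cast hcpos
      have hC1pos : 0 < C1 := by rw [hC1]; exact_mod_cast h1pos
      have hC0pos : 0 < C0 := by rw [hC0]; exact_mod_cast h0pos
      have pasR : C = C1 + C0 := by rw [hC, hC1, hC0]; exact_mod_cast pas
      have absR : ((m' : ℝ) + 1) * C1 = C * ((k' : ℝ) + 1) := by
        rw [hC, hC1]; exact_mod_cast abs
      have hAm : (1 / 2 - η) * ((m' : ℝ) + 1) ≤ A := by
        have := hA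
        rw [hm'] at this
        push_cast at this
        exact this
      have hkA : (A : ℝ) ≤ (k' : ℝ) + 1 := by
        exact_mod_cast (by omega : A ≤ k' + 1)
      have hmkA : (A : ℝ) ≤ ((m' : ℝ) + 1) - ((k' : ℝ) + 1) := by
        have : A + (k' + 1) ≤ m' + 1 := by omega
        have : (A : ℝ) + ((k' : ℝ) + 1) ≤ (m' : ℝ) + 1 := by exact_mod_cast this
        linarith
      have hmpos : (0 : ℝ) < (m' : ℝ) + 1 := by positivity
      have q1 : (1 / 2 - η) * C ≤ C1 := by
        have : (1 / 2 - η) * C * ((m' : ℝ) + 1) ≤ C1 * ((m' : ℝ) + 1) := by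
          calc (1 / 2 - η) * C * ((m' : ℝ) + 1) = C * ((1 / 2 - η) * ((m' : ℝ) + 1)) := by ring
            _ ≤ C * ((k' : ℝ) + 1) := mul_le_mul_of_nonneg_left (by linarith) hCpos.le
            _ = C1 * ((m' : ℝ) + 1) := by rw [← absR]; ring
        exact le_of_mul_le_mul_right this hmpos
      have q0 : (1 / 2 - η) * C ≤ C0 := by
        have e0 : ((m' : ℝ) + 1) * C0 = C * (((m' : ℝ) + 1) - ((k' : ℝ) + 1)) := by
          have : C0 = C - C1 := by linarith
          rw [this, mul_sub, absR]
          ring
        have : (1 / 2 - η) * C * ((m' : ℝ) + 1) ≤ C0 * ((m' : ℝ) + 1) := by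
          calc (1 / 2 - η) * C * ((m' : ℝ) + 1) = C * ((1 / 2 - η) * ((m' : ℝ) + 1)) := by ring
            _ ≤ C * (((m' : ℝ) + 1) - ((k' : ℝ) + 1)) :=
              mul_le_mul_of_nonneg_left (by linarith) hCpos.le
            _ = C0 * ((m' : ℝ) + 1) := by rw [← e0]; ring
        exact le_of_mul_le_mul_right this hmpos
      set F : (V → Bool) → ℝ := fun y => bi ((DT.node v l r).eval y) with hF
      have s0 : ∑ y ∈ ws (upd κ v false) W, F y =
          C0 * wm (upd κ v false) W (fun y => bi (l.eval y)) := by
        unfold wm
        rw [c0', ← hC0, mul_div_cancel₀ _ hC0pos.ne']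
        refine Finset.sum_congr rfl fun y hy => ?_
        rw [mem_ws] at hy
        have : y v = false := hy.1 v false (by simp [upd])
        simp [hF, Pool.Agent.H68.AC.DT.eval, this]
      have s1 : ∑ y ∈ ws (upd κ v true) W, F y =
          C1 * wm (upd κ v true) W (fun y => bi (r.eval y)) := by
        unfold wm
        rw [c1', ← hC1, mul_div_cancel₀ _ hC1pos.ne']
        refine Finset.sum_congr rfl fun y hy => ?_
        rw [mem_ws] at hy
        have : y v = true := hy.1 v true (by simp [upd])
        simp [hF, Pool.Agent.H68.AC.DT.eval, this]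
      have w : wm κ W F = (C0 * wm (upd κ v false) W (fun y => bi (l.eval y)) +
          C1 * wm (upd κ v true) W (fun y => bi (r.eval y))) / C := by
        rw [← s0, ← s1, ← sum_ws κ W v hκ F]
        unfold wm
        rw [c']
      rw [w, hF, mn_node κ v hκ l r, hd]
      set m0 := mn (rst (upd κ v false) fun y => bi (l.eval y)) with hm0
      set m1 := mn (rst (upd κ v true) fun y => bi (r.eval y)) with hm1
      set w0 := wm (upd κ v false) W (fun y => bi (l.eval y)) with hw0
      set w1 := wm (upd κ v true) W (fun y => bi (r.eval y)) with hw1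
      have m0n : 0 ≤ m0 := mn_nonneg' _ fun y => bi_nonneg' _
      have m1n : 0 ≤ m1 := mn_nonneg' _ fun y => bi_nonneg' _
      set D := max l.depth r.depth with hD
      have j0 : (1 - 2 * η) ^ D * m0 ≤ w0 :=
        le_trans (mul_le_mul_of_nonneg_right (pow_le_pow_of_le_one hb0 hb1 hll) m0n) i0
      have j1 : (1 - 2 * η) ^ D * m1 ≤ w1 :=
        le_trans (mul_le_mul_of_nonneg_right (pow_le_pow_of_le_one hb0 hb1 hrr) m1n) i1
      have w0n : 0 ≤ w0 := le_trans (by positivity) j0
      have w1n : 0 ≤ w1 := le_trans (by positivity) j1
      rw [le_div_iff₀ hCpos]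
      calc (1 - 2 * η) ^ (D + 1) * ((m0 + m1) / 2) * C
          = (1 / 2 - η) * C * ((1 - 2 * η) ^ D * m0 + (1 - 2 * η) ^ D * m1) := by
            rw [pow_succ]; ring
        _ ≤ (1 / 2 - η) * C * (w0 + w1) :=
            mul_le_mul_of_nonneg_left (by linarith)
              (mul_nonneg (by linarith) hCpos.le)
        _ = ((1 / 2 - η) * C) * w0 + ((1 / 2 - η) * C) * w1 := by ring
        _ ≤ C0 * w0 + C1 * w1 := add_le_add (mul_le_mul_of_nonneg_right q0 w0n)
            (mul_le_mul_of_nonneg_right q1 w1n)
    · -- the variable is fixed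
      rw [wm_child κ W v b hκ l r, mn_child κ v b hκ l r]
      rw [hd] at h1 h2 ⊢
      cases b with
      | false =>
        have i0 := ihl κ W A η h0 hη (by omega) (by omega) hA
        refine le_trans ?_ i0
        refine mul_le_mul_of_nonneg_right (pow_le_pow_of_le_one hb0 hb1 (by omega)) ?_
        exact mn_nonneg' _ fun y => bi_nonneg' _
      | true =>
        have i0 := ihr κ W A η h0 hη (by omega) (by omega) hA
        refine le_trans ?_ i0
        refine mul_le_mul_of_nonneg_right (pow_le_pow_of_le_one hb0 hb1 (by omega)) ?_
        exact mn_nonneg' _ fun y => bi_nonneg' _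

end Pool.Agent.H51.XQ
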